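import Mathlib

set_option autoImplicit false

/-!
# The elementary inequality behind the lower bound for the height sum
-/

namespace Pool.Agent.Helper83.Ram5

theorem cvx {b x y t : ℝ} (hx : x ≤ t) (hy : t ≤ y) (h1 : (b + 4 * x) ^ 2 ≤ 2 * x)
    (h2 : (b + 4 * y) ^ 2 ≤ 2 * y) : (b + 4 * t) ^ 2 ≤ 2 * t := by
  rcases eq_or_lt_of_le (hx.trans hy) with h | h
  · have : t = x := le_antisymm (h ▸ hy) hx
    rw [this]; exact h1
  · have h3 : 0 ≤ (t - x) * (y - t) := mul_nonneg (by linarith) (by linarith)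
    have h4 : ((b + 4 * t) ^ 2 - 2 * t) * (y - x) ≤ 0 := by
      have e : ((b + 4 * t) ^ 2 - 2 * t) * (y - x) = ((b + 4 * x) ^ 2 - 2 * x) * (y - t)
        + ((b + 4 * y) ^ 2 - 2 * y) * (t - x) - 16 * ((t - x) * (y - t)) * (y - x) := by ring
      rw [e]
      have e1 : ((b + 4 * x) ^ 2 - 2 * x) * (y - t) ≤ 0 :=
        mul_nonpos_of_nonpos_of_nonneg (by linarith) (by linarith)
      have e2 : ((b + 4 * y) ^ 2 - 2 * y) * (t - x) ≤ 0 :=
        mul_nonpos_of_nonpos_of_nonneg (by linarith) (by linarith)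
      have e3 : 0 ≤ 16 * ((t - x) * (y - t)) * (y - x) :=
        mul_nonneg (by linarith) (by linarith)
      linarith
    by_contra hc
    have h5 : 0 < ((b + 4 * t) ^ 2 - 2 * t) * (y - x) :=
      mul_pos (by linarith [not_le.mp hc]) (by linarith)
    linarith

theorem wlem {D s a : ℝ} (ha : 0 ≤ a) (hag : a ≤ D) :
    a * (s + a) ≤ D * max 0 (s + a) := by
  rcases le_total 0 (s + a) with hx | hx
  · rw [max_eq_right hx]; exact mul_le_mul_of_nonneg_right hag hx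
  · rw [max_eq_left hx, mul_zero]; exact mul_nonpos_of_nonneg_of_nonpos ha hx

theorem case2 {r t s : ℝ} (hs : s = 153 / 100 * r - r ^ 2 - 1 / 2 - t) (hr : r < 98 / 100)
    (hr7 : 7 / 10 < r) (htG : t ≤ r ^ 2 - 1 / 2) (c2 : t ≤ 1 / 10)
    (c1 : 8 * s < 1 - 6767 / 7900 * r) :
    (1 - 6767 / 7900 * r - 4 * s) ^ 2 ≤ 2 * t := by
  have e : 1 - 6767 / 7900 * r - 4 * s
      = (1 - 6767 / 7900 * r - 4 * (153 / 100 * r - r ^ 2 - 1 / 2)) + 4 * t := by rw [hs]; ring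
  rw [e]
  have hx : 153 / 100 * r - r ^ 2 - 1 / 2 - (1 - 6767 / 7900 * r) / 8 ≤ t := by
    rw [hs] at c1; linarith
  have hφ1 : ((1 - 6767 / 7900 * r - 4 * (153 / 100 * r - r ^ 2 - 1 / 2))
      + 4 * (153 / 100 * r - r ^ 2 - 1 / 2 - (1 - 6767 / 7900 * r) / 8)) ^ 2
      ≤ 2 * (153 / 100 * r - r ^ 2 - 1 / 2 - (1 - 6767 / 7900 * r) / 8) := by
    nlinarith [mul_pos (sub_pos.mpr hr7) (sub_pos.mpr hr)]
  rcases le_total (1 / 10) (r ^ 2 - 1 / 2) with hG | hG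
  · refine cvx hx c2 hφ1 ?_
    have l1 : -(9 / 20) ≤ 1 - 6767 / 7900 * r - 4 * (153 / 100 * r - r ^ 2 - 1 / 2) + 4 * (1 / 10) := by
      nlinarith [sq_nonneg (r - 87 / 100)]
    have hr77 : 77 / 100 < r := by nlinarith
    have l2 : 1 - 6767 / 7900 * r - 4 * (153 / 100 * r - r ^ 2 - 1 / 2) + 4 * (1 / 10) ≤ 44 / 100 := by
      nlinarith [mul_pos (sub_pos.mpr hr77) (sub_pos.mpr hr)]
    nlinarith
  · refine cvx hx htG hφ1 ?_
    have hr78 : r < 78 / 100 := by nlinarith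
    have hr73 : 73 / 100 < r := by
      have : 153 / 100 * r - r ^ 2 - 1 / 2 - (1 - 6767 / 7900 * r) / 8 ≤ r ^ 2 - 1 / 2 :=
        hx.trans htG
      nlinarith
    have l1 : 0 ≤ 1 - 6767 / 7900 * r - 4 * (153 / 100 * r - r ^ 2 - 1 / 2) + 4 * (r ^ 2 - 1 / 2) := by
      nlinarith
    have l2 : 1 - 6767 / 7900 * r - 4 * (153 / 100 * r - r ^ 2 - 1 / 2) + 4 * (r ^ 2 - 1 / 2)
        ≤ 52 / 10 * (r - 73 / 100) + 172 / 1000 := by nlinarith
    have l3 : (52 / 10 * (r - 73 / 100) + 172 / 1000) ^ 2 ≤ 2 * (r ^ 2 - 1 / 2) := by nlinarith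
    nlinarith

theorem case3 {r t : ℝ} (hr : r < 98 / 100) (hr7 : 7 / 10 < r) (htG : t ≤ r ^ 2 - 1 / 2)
    (c2 : 1 / 10 < t) :
    (1 - 6767 / 7900 * r) * (r ^ 2 - 1 / 2 + t) ≤ 153 / 100 * r - r ^ 2 - 1 / 2 + t := by
  have hR : 0 ≤ 6767 / 7900 * r := by linarith
  have h1 : (1 - 6767 / 7900 * r) * (r ^ 2 - 1 / 2 + 1 / 10) ≤ 153 / 100 * r - r ^ 2 - 1 / 2 + 1 / 10 := by
    have : 0 ≤ r * (1187367 / 1000000 - 2 * r + 856582 / 1000000 * r ^ 2) := by
      apply mul_nonneg (by linarith)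
      nlinarith
    nlinarith
  nlinarith [mul_nonneg hR (sub_nonneg.mpr c2.le)]

/-- elementary inequality: positive parts -/
theorem core_ineq {r a1 a2 a3 a4 t s : ℝ} (h1 : 0 ≤ a1) (h2 : 0 ≤ a2) (h3 : 0 ≤ a3) (h4 : 0 ≤ a4)
    (hA : a1 + a2 + a3 + a4 ≤ 1) (ht : 2 * t = a1 ^ 2 + a2 ^ 2 + a3 ^ 2 + a4 ^ 2)
    (hs : s = 153 / 100 * r - r ^ 2 - 1 / 2 - t) (hr : r < 98 / 100) (hr0 : 0 < r)
    (g1 : a1 ≤ r ^ 2 - 1 / 2 + t) (g2 : a2 ≤ r ^ 2 - 1 / 2 + t)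
    (g3 : a3 ≤ r ^ 2 - 1 / 2 + t) (g4 : a4 ≤ r ^ 2 - 1 / 2 + t) :
    1 - 6767 / 7900 * r ≤
      (max 0 (s + a1) + max 0 (s - a1)) + (max 0 (s + a2) + max 0 (s - a2))
      + (max 0 (s + a3) + max 0 (s - a3)) + (max 0 (s + a4) + max 0 (s - a4)) := by
  have m0 : ∀ x : ℝ, 0 ≤ max 0 x := fun x => le_max_left _ _
  have m1 : ∀ x : ℝ, x ≤ max 0 x := fun x => le_max_right _ _
  have ht0 : 0 ≤ t := by nlinarith [sq_nonneg a1, sq_nonneg a2, sq_nonneg a3, sq_nonneg a4]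
  obtain ⟨D, hD⟩ : ∃ D : ℝ, D = r ^ 2 - 1 / 2 + t := ⟨_, rfl⟩
  rw [← hD] at g1 g2 g3 g4
  have hD0 : 0 ≤ D := h1.trans g1
  have htG : t ≤ r ^ 2 - 1 / 2 := by
    have e1 := mul_le_mul_of_nonneg_left g1 h1
    have e2 := mul_le_mul_of_nonneg_left g2 h2
    have e3 := mul_le_mul_of_nonneg_left g3 h3
    have e4 := mul_le_mul_of_nonneg_left g4 h4
    have e5 : D * (a1 + a2 + a3 + a4) ≤ D * 1 := mul_le_mul_of_nonneg_left hA hD0
    nlinarith
  have hr7 : 7 / 10 < r := by nlinarith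
  by_cases c1 : 1 - 6767 / 7900 * r ≤ 8 * s
  · have := m1 (s + a1); have := m1 (s - a1); have := m1 (s + a2); have := m1 (s - a2)
    have := m1 (s + a3); have := m1 (s - a3); have := m1 (s + a4); have := m1 (s - a4)
    linarith
  rw [not_le] at c1
  by_cases c2 : t ≤ 1 / 10
  · -- four nearest
    have hA2 : 2 * t ≤ (a1 + a2 + a3 + a4) ^ 2 := by
      rw [ht]
      have := mul_nonneg h1 h2; have := mul_nonneg h1 h3; have := mul_nonneg h1 h4
      have := mul_nonneg h2 h3; have := mul_nonneg h2 h4; have := mul_nonneg h3 h4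
      nlinarith
    have hA0 : 0 ≤ a1 + a2 + a3 + a4 := by positivity
    have key : 1 - 6767 / 7900 * r - 4 * s ≤ a1 + a2 + a3 + a4 :=
      abs_le_of_sq_le_sq' ((case2 hs hr hr7 htG c2 c1).trans hA2) hA0 |>.2
    have := m1 (s + a1); have := m0 (s - a1); have := m1 (s + a2); have := m0 (s - a2)
    have := m1 (s + a3); have := m0 (s - a3); have := m1 (s + a4); have := m0 (s - a4)
    linarith
  · rw [not_le] at c2
    have hs0 : s ≤ 0 := by rw [hs]; nlinarith [sq_nonneg (r - 153 / 200)]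
    have hDp : 0 < D := by linarith
    have e1 := wlem (s := s) h1 g1
    have e2 := wlem (s := s) h2 g2
    have e3 := wlem (s := s) h3 g3
    have e4 := wlem (s := s) h4 g4
    have e5 : s ≤ s * (a1 + a2 + a3 + a4) := by
      have := mul_le_mul_of_nonpos_left hA hs0
      linarith
    have e6 := case3 hr hr7 htG c2
    rw [← hD] at e6
    have e7 : D * (1 - 6767 / 7900 * r) ≤ D * (max 0 (s + a1) + max 0 (s + a2)
        + max 0 (s + a3) + max 0 (s + a4)) := by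
      have e9 : a1 * (s + a1) + a2 * (s + a2) + a3 * (s + a3) + a4 * (s + a4)
          = s * (a1 + a2 + a3 + a4) + 2 * t := by rw [ht]; ring
      have e10 : D * (1 - 6767 / 7900 * r) ≤ s + 2 * t := by rw [mul_comm]; linarith
      rw [mul_add, mul_add, mul_add]
      linarith
    have e8 := le_of_mul_le_mul_left e7 hDp
    have := m0 (s - a1); have := m0 (s - a2); have := m0 (s - a3); have := m0 (s - a4)
    linarith

end Pool.Agent.Helper83.Ram5
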