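import Pool.Agent.Helper83.Ram5.Units
import Pool.Agent.Helper83.Ram5.Core

set_option autoImplicit false

/-!
# Lower bound for the height sum of `GL₂` of the Hurwitz order
-/

namespace Pool.Agent.Helper83.Ram5

open Pool.Agent.Helper10.Ram5 Pool.Agent.Helper34.Ram5
open scoped Quaternion ENNReal

/-- membership in `Gam Hur` can be read off the entries -/
theorem mem_Gam (g : GL2H) (h1 : ∀ i j, g.1 i j ∈ Hur) (h2 : ∀ i j, (g⁻¹).1 i j ∈ Hur) :
    g ∈ Gam Hur := by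
  let A : Matrix (Fin 2) (Fin 2) Hur := fun i j => ⟨g.1 i j, h1 i j⟩
  let B : Matrix (Fin 2) (Fin 2) Hur := fun i j => ⟨(g⁻¹).1 i j, h2 i j⟩
  have hAB : A * B = 1 := by
    refine Matrix.ext fun i j => Subtype.ext ?_
    have h3 : g.1 * (g⁻¹).1 = 1 := g.mul_inv
    have h4 := congrFun (congrFun h3 i) j
    rw [Matrix.mul_apply, Fin.sum_univ_two] at h4 ⊢
    rw [Matrix.one_apply] at h4 ⊢
    push_cast
    show g.1 i 0 * (g⁻¹).1 0 j + g.1 i 1 * (g⁻¹).1 1 j = _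
    rw [h4]
    split_ifs <;> simp
  have hBA : B * A = 1 := by
    refine Matrix.ext fun i j => Subtype.ext ?_
    have h3 : (g⁻¹).1 * g.1 = 1 := g.inv_mul
    have h4 := congrFun (congrFun h3 i) j
    rw [Matrix.mul_apply, Fin.sum_univ_two] at h4 ⊢
    rw [Matrix.one_apply] at h4 ⊢
    push_cast
    show (g⁻¹).1 i 0 * g.1 0 j + (g⁻¹).1 i 1 * g.1 1 j = _
    rw [h4]
    split_ifs <;> simp
  refine ⟨⟨A, B, hAB, hBA⟩, Units.ext ?_⟩
  refine Matrix.ext fun i j => ?_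
  rfl

theorem entry_mem {g : GL2H} (hg : g ∈ Gam Hur) (i j : Fin 2) : g.1 i j ∈ Hur := by
  obtain ⟨m, rfl⟩ := hg
  exact (m.1 i j).2

/-- `diag (1, e)` -/
noncomputable def gD (e : ℍ[ℝ]) (he : e ∈ US) : GL2H :=
  ⟨!![1, 0; 0, e], !![1, 0; 0, star e],
    Matrix.ext fun i j => by
      fin_cases i <;> fin_cases j <;>
        simp [Matrix.mul_apply, Fin.sum_univ_two, mul_star_of_US he],
    Matrix.ext fun i j => by
      fin_cases i <;> fin_cases j <;>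
        simp [Matrix.mul_apply, Fin.sum_univ_two, star_mul_of_US he]⟩

/-- the matrix with bottom row `(e, -e d)` -/
noncomputable def gL (e d : ℍ[ℝ]) (he : e ∈ US) : GL2H :=
  ⟨!![0, 1; e, -(e * d)], !![d, star e; 1, 0],
    Matrix.ext fun i j => by
      fin_cases i <;> fin_cases j <;>
        simp [Matrix.mul_apply, Fin.sum_univ_two, mul_star_of_US he],
    Matrix.ext fun i j => by
      fin_cases i <;> fin_cases j <;>
        simp [Matrix.mul_apply, Fin.sum_univ_two, star_mul_of_US he, ← mul_assoc]⟩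

theorem gD_mem {e : ℍ[ℝ]} (he : e ∈ US) : gD e he ∈ Gam Hur := by
  apply mem_Gam
  · intro i j
    fin_cases i <;> fin_cases j <;> simp [gD, he.1]
  · intro i j
    show (!![1, 0; 0, star e] : Matrix (Fin 2) (Fin 2) ℍ[ℝ]) i j ∈ Hur
    fin_cases i <;> fin_cases j <;> simp [star_mem he.1]

theorem gL_mem {e d : ℍ[ℝ]} (he : e ∈ US) (hd : d ∈ Hur) : gL e d he ∈ Gam Hur := by
  apply mem_Gam
  · intro i j
    fin_cases i <;> fin_cases j <;> simp [gL, he.1, mul_mem he.1 hd]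
  · intro i j
    show (!![d, star e; 1, 0] : Matrix (Fin 2) (Fin 2) ℍ[ℝ]) i j ∈ Hur
    fin_cases i <;> fin_cases j <;> simp [star_mem he.1, hd]

theorem den_gD {e : ℍ[ℝ]} (he : e ∈ US) (p : Pt) : den (gD e he) p = 1 := by
  simp [den, gD, he.2]

theorem den_gL {e d : ℍ[ℝ]} (he : e ∈ US) (p : Pt) :
    den (gL e d he) p = ‖p.1 - d‖ ^ 2 + p.2 ^ 2 := by
  have h1 : e * p.1 + -(e * d) = e * (p.1 - d) := by rw [mul_sub]; abel
  simp only [den, gL, Matrix.of_apply, Matrix.cons_val', Matrix.cons_val_zero,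
    Matrix.cons_val_one, Matrix.cons_val_fin_one]
  rw [h1, norm_mul, he.2]
  ring

theorem act_snd (g : GL2H) (p : Pt) : (act g p).2 = p.2 / den g p := rfl

theorem uval_row (g : GL2H) (p : Pt) : uval (g.1 1 0, g.1 1 1) p = den g p / p.2 := rfl

/-- the sum over a family of group elements with distinct bottom rows is bounded by the sum over
all primitive rows -/
theorem family_le
    (hmul : ∀ (g h : GL2H), nrd h.1 = 1 → ∀ {p : Pt}, p ∈ UH → act (g * h) p = act g (act h p))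
    (hR : NiceRing Hur) {J : Type} [Fintype J] (h : J → GL2H) (hh : ∀ j, h j ∈ Gam Hur)
    (hinj : ∀ j k, (h j).1 1 0 = (h k).1 1 0 → (h j).1 1 1 = (h k).1 1 1 → j = k)
    {γ : GL2H} (hγ : γ ∈ Gam Hur) {p : Pt} (hp : p ∈ UH) (F : ℝ → ℝ≥0∞) :
    ∑ j, F ((act (h j) (act γ p)).2) ≤ ∑' v : Prim Hur, F (1 / uval v p) := by
  classical
  let φ : J → Prim Hur := fun j =>
    ⟨((h j * γ).1 1 0, (h j * γ).1 1 1), ⟨h j * γ, mul_mem (hh j) hγ, rfl⟩⟩
  have hφ : Function.Injective φ := by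
    intro j k hjk
    have h0 : (h j * γ).1 1 0 = (h k * γ).1 1 0 := congrArg (fun v => (v : ℍ[ℝ] × ℍ[ℝ]).1)
      (congrArg Subtype.val hjk)
    have h1 : (h j * γ).1 1 1 = (h k * γ).1 1 1 := congrArg (fun v => (v : ℍ[ℝ] × ℍ[ℝ]).2)
      (congrArg Subtype.val hjk)
    have key : ∀ (l : J) (i : Fin 2), (h l).1 1 i
        = (h l * γ).1 1 0 * (γ⁻¹).1 0 i + (h l * γ).1 1 1 * (γ⁻¹).1 1 i := by
      intro l i
      have e : (h l).1 = (h l * γ).1 * (γ⁻¹).1 := by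
        have : h l = (h l * γ) * γ⁻¹ := by group
        exact congrArg Units.val this
      have e2 := congrFun (congrFun e 1) i
      rw [Matrix.mul_apply, Fin.sum_univ_two] at e2
      exact e2
    apply hinj
    · rw [key j, key k, h0, h1]
    · rw [key j, key k, h0, h1]
  have e1 : ∀ j, F ((act (h j) (act γ p)).2) = F (1 / uval (φ j) p) := by
    intro j
    rw [← hmul (h j) γ (hR.nrd_one γ hγ) hp, act_snd]
    congr 1
    show _ = 1 / uval ((h j * γ).1 1 0, (h j * γ).1 1 1) p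
    rw [uval_row, one_div_div]
  calc ∑ j, F ((act (h j) (act γ p)).2) = ∑ j, F (1 / uval (φ j) p) :=
        Finset.sum_congr rfl fun j _ => e1 j
    _ = ∑' j, F (1 / uval (φ j) p) := (tsum_fintype _).symm
    _ ≤ ∑' v : Prim Hur, F (1 / uval v p) :=
        ENNReal.tsum_comp_le_tsum_of_injective hφ fun v : Prim Hur => F (1 / uval v p)

/-- there is a highest point in every orbit -/
theorem exists_highest (hden : ∀ (g : GL2H) {p : Pt}, p ∈ UH → 0 < den g p)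
    (hR : NiceRing Hur) {p : Pt} (hp : p ∈ UH) :
    ∃ γ ∈ Gam Hur, ∀ δ ∈ Gam Hur, (act δ p).2 ≤ (act γ p).2 := by
  have hp2 : 0 < p.2 := hp
  -- finitely many rows with den ≤ 1
  let q : ℍ[ℝ] × ℍ[ℝ] → ℝ := fun v => ‖v.1 * p.1 + v.2‖ ^ 2 + ‖v.1‖ ^ 2 * p.2 ^ 2
  let S : Set (ℍ[ℝ] × ℍ[ℝ]) := {v | v ∈ Prim Hur ∧ q v ≤ 1}
  have hS : S.Finite := by
    let C1 : ℝ := 1 / p.2
    let C2 : ℝ := 1 + C1 * ‖p.1‖
    refine ((hR.fin C1).prod (hR.fin C2)).subset ?_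
    rintro v ⟨⟨γ, hγ, rfl⟩, hv⟩
    have hv' : ‖γ.1 1 0 * p.1 + γ.1 1 1‖ ^ 2 + ‖γ.1 1 0‖ ^ 2 * p.2 ^ 2 ≤ 1 := hv
    have h1 : ‖γ.1 1 0‖ ≤ C1 := by
      have h2 : (‖γ.1 1 0‖ * p.2) ^ 2 ≤ 1 ^ 2 := by
        rw [mul_pow]; nlinarith [sq_nonneg ‖γ.1 1 0 * p.1 + γ.1 1 1‖]
      have h3 := abs_le_of_sq_le_sq' h2 zero_le_one |>.2
      show _ ≤ 1 / p.2
      rwa [le_div_iff₀ hp2]
    have h2 : ‖γ.1 1 1‖ ≤ C2 := by
      have h3 : ‖γ.1 1 0 * p.1 + γ.1 1 1‖ ≤ 1 := by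
        have h4 : ‖γ.1 1 0 * p.1 + γ.1 1 1‖ ^ 2 ≤ 1 ^ 2 := by
          nlinarith [mul_nonneg (sq_nonneg ‖γ.1 1 0‖) (sq_nonneg p.2)]
        exact abs_le_of_sq_le_sq' h4 zero_le_one |>.2
      have h5 : ‖γ.1 1 1‖ ≤ ‖γ.1 1 0 * p.1 + γ.1 1 1‖ + ‖γ.1 1 0 * p.1‖ := by
        have := norm_sub_le (γ.1 1 0 * p.1 + γ.1 1 1) (γ.1 1 0 * p.1)
        rwa [add_sub_cancel_left] at this
      have h6 : ‖γ.1 1 0 * p.1‖ ≤ C1 * ‖p.1‖ := by
        rw [norm_mul]; exact mul_le_mul_of_nonneg_right h1 (norm_nonneg _)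
      show _ ≤ 1 + C1 * ‖p.1‖
      linarith
    exact ⟨⟨entry_mem hγ 1 0, h1⟩, ⟨entry_mem hγ 1 1, h2⟩⟩
  have hne : S.Nonempty := by
    refine ⟨(0, 1), ⟨1, one_mem _, by simp⟩, ?_⟩
    show ‖(0 : ℍ[ℝ]) * p.1 + 1‖ ^ 2 + ‖(0 : ℍ[ℝ])‖ ^ 2 * p.2 ^ 2 ≤ 1
    simp
  obtain ⟨v, ⟨⟨γ, hγ, hv⟩, hv1⟩, hmin⟩ := Set.exists_min_image S q hS hne
  refine ⟨γ, hγ, fun δ hδ => ?_⟩
  have h1 : den γ p ≤ den δ p := by
    have e1 : q v = den γ p := by rw [hv]; rfl
    by_cases h : den δ p ≤ 1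
    · have := hmin (δ.1 1 0, δ.1 1 1) ⟨⟨δ, hδ, rfl⟩, h⟩
      rw [e1] at this
      exact this
    · rw [e1] at hv1
      linarith
  rw [act_snd, act_snd]
  exact div_le_div_of_nonneg_left hp2.le (hden γ hp) h1

/-- the eight vertices of the 16-cell -/
noncomputable def pts : Fin 8 → ℍ[ℝ] :=
  ![⟨0, 0, 0, 0⟩, ⟨1, 1, 0, 0⟩, ⟨1, 0, 0, 0⟩, ⟨0, 1, 0, 0⟩,
    ⟨1 / 2, 1 / 2, 1 / 2, 1 / 2⟩, ⟨1 / 2, 1 / 2, -1 / 2, -1 / 2⟩,
    ⟨1 / 2, 1 / 2, 1 / 2, -1 / 2⟩, ⟨1 / 2, 1 / 2, -1 / 2, 1 / 2⟩]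

/-- twice the coordinates -/
def ptz : Fin 8 → Fin 4 → ℤ :=
  ![![0, 0, 0, 0], ![2, 2, 0, 0], ![2, 0, 0, 0], ![0, 2, 0, 0],
    ![1, 1, 1, 1], ![1, 1, -1, -1], ![1, 1, 1, -1], ![1, 1, -1, 1]]

theorem pts_eq (m : Fin 8) : pts m =
    ⟨(ptz m 0 : ℝ) / 2, (ptz m 1 : ℝ) / 2, (ptz m 2 : ℝ) / 2, (ptz m 3 : ℝ) / 2⟩ := by
  fin_cases m <;> simp [pts, ptz]

theorem ptz_inj : Function.Injective ptz := by decide

theorem pts_inj : Function.Injective pts := by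
  intro a b h
  rw [pts_eq, pts_eq] at h
  apply ptz_inj
  funext m
  have h0 := congrArg (fun q : ℍ[ℝ] => q.re) h
  have h1 := congrArg (fun q : ℍ[ℝ] => q.imI) h
  have h2 := congrArg (fun q : ℍ[ℝ] => q.imJ) h
  have h3 := congrArg (fun q : ℍ[ℝ] => q.imK) h
  simp only at h0 h1 h2 h3
  fin_cases m
  · have : (ptz a 0 : ℝ) = ptz b 0 := by linarith
    exact_mod_cast this
  · have : (ptz a 1 : ℝ) = ptz b 1 := by linarith
    exact_mod_cast this
  · have : (ptz a 2 : ℝ) = ptz b 2 := by linarith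
    exact_mod_cast this
  · have : (ptz a 3 : ℝ) = ptz b 3 := by linarith
    exact_mod_cast this

theorem pts_mem (m : Fin 8) : pts m ∈ Hur := by
  apply mem_of_isH
  fin_cases m
  · exact ⟨0, 0, 0, 0, by simp [pts]⟩
  · exact ⟨1, 1, 0, 0, by simp [pts]⟩
  · exact ⟨1, 0, 0, 0, by simp [pts]⟩
  · exact ⟨0, 1, 0, 0, by simp [pts]⟩
  · exact ⟨0, 0, 0, 1, by simp [pts]⟩
  · exact ⟨1, 1, 0, -1, by simp [pts]; norm_num⟩
  · exact ⟨1, 1, 1, -1, by simp [pts]; norm_num⟩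
  · exact ⟨0, 0, -1, 1, by simp [pts]; norm_num⟩

/-- the analytic inequality in normal form -/
theorem point_ineq {y : ℍ[ℝ]} {r : ℝ} (hr0 : 0 < r) (hr : r < 98 / 100)
    (hy0 : y.re ≤ 1 / 2) (hyI : 0 ≤ y.imI) (hJ : |y.imJ| ≤ y.imI) (hK : |y.imK| ≤ y.imI)
    (hsum : y.imI + |y.imJ| + |y.imK| ≤ y.re)
    (hred : ∀ m, 1 ≤ ‖y - pts m‖ ^ 2 + r ^ 2) :
    1 - 6767 / 7900 * r ≤ ∑ m, max 0 (153 / 100 * r - r ^ 2 - ‖y - pts m‖ ^ 2) := by
  have dd : ∀ m, ‖y - pts m‖ ^ 2 = (y.re - (pts m).re) ^ 2 + (y.imI - (pts m).imI) ^ 2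
      + (y.imJ - (pts m).imJ) ^ 2 + (y.imK - (pts m).imK) ^ 2 := by
    intro m
    rw [nsq, Quaternion.re_sub, Quaternion.imI_sub, Quaternion.imJ_sub, Quaternion.imK_sub]
  obtain ⟨y0, hy0'⟩ : ∃ x : ℝ, x = y.re := ⟨_, rfl⟩
  obtain ⟨y1, hy1'⟩ : ∃ x : ℝ, x = y.imI := ⟨_, rfl⟩
  obtain ⟨y2, hy2'⟩ : ∃ x : ℝ, x = y.imJ := ⟨_, rfl⟩
  obtain ⟨y3, hy3'⟩ : ∃ x : ℝ, x = y.imK := ⟨_, rfl⟩
  rw [← hy0'] at hy0 hsum
  rw [← hy1'] at hyI hJ hK hsum
  rw [← hy2'] at hJ hsum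
  rw [← hy3'] at hK hsum
  obtain ⟨t, ht⟩ : ∃ t : ℝ, t = (y0 - 1 / 2) ^ 2 + (y1 - 1 / 2) ^ 2 + y2 ^ 2 + y3 ^ 2 := ⟨_, rfl⟩
  have d0 : ‖y - pts 0‖ ^ 2 = 1 / 2 + t - (1 - y0 - y1) := by
    rw [dd, ← hy0', ← hy1', ← hy2', ← hy3', ht]; simp [pts]; ring
  have d1 : ‖y - pts 1‖ ^ 2 = 1 / 2 + t + (1 - y0 - y1) := by
    rw [dd, ← hy0', ← hy1', ← hy2', ← hy3', ht]; simp [pts]; ring
  have d2 : ‖y - pts 2‖ ^ 2 = 1 / 2 + t - (y0 - y1) := by
    rw [dd, ← hy0', ← hy1', ← hy2', ← hy3', ht]; simp [pts]; ring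
  have d3 : ‖y - pts 3‖ ^ 2 = 1 / 2 + t + (y0 - y1) := by
    rw [dd, ← hy0', ← hy1', ← hy2', ← hy3', ht]; simp [pts]; ring
  have d4 : ‖y - pts 4‖ ^ 2 = 1 / 2 + t - (y2 + y3) := by
    rw [dd, ← hy0', ← hy1', ← hy2', ← hy3', ht]; simp [pts]; ring
  have d5 : ‖y - pts 5‖ ^ 2 = 1 / 2 + t + (y2 + y3) := by
    rw [dd, ← hy0', ← hy1', ← hy2', ← hy3', ht]; simp [pts]; ring
  have d6 : ‖y - pts 6‖ ^ 2 = 1 / 2 + t - (y2 - y3) := by
    rw [dd, ← hy0', ← hy1', ← hy2', ← hy3', ht]; simp [pts]; ring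
  have d7 : ‖y - pts 7‖ ^ 2 = 1 / 2 + t + (y2 - y3) := by
    rw [dd, ← hy0', ← hy1', ← hy2', ← hy3', ht]; simp [pts]; ring
  have r0 := hred 0
  have r1 := hred 1
  have r2 := hred 2
  have r3 := hred 3
  have r4 := hred 4
  have r5 := hred 5
  have r6 := hred 6
  have r7 := hred 7
  rw [d0] at r0
  rw [d1] at r1
  rw [d2] at r2
  rw [d3] at r3
  rw [d4] at r4
  rw [d5] at r5
  rw [d6] at r6
  rw [d7] at r7
  have sq3 : |y2 + y3| ^ 2 = (y2 + y3) ^ 2 := sq_abs _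
  have sq4 : |y2 - y3| ^ 2 = (y2 - y3) ^ 2 := sq_abs _
  have hab : |y2 + y3| + |y2 - y3| ≤ 2 * y1 := by
    rcases abs_cases (y2 + y3) with ⟨h1, -⟩ | ⟨h1, -⟩ <;>
      rcases abs_cases (y2 - y3) with ⟨h2, -⟩ | ⟨h2, -⟩ <;>
      rw [h1, h2] <;> linarith [(abs_le.mp hJ).1, (abs_le.mp hJ).2, (abs_le.mp hK).1, (abs_le.mp hK).2]
  have hj0 := abs_nonneg y2
  have hk0 := abs_nonneg y3
  have key := core_ineq (r := r) (a1 := 1 - y0 - y1) (a2 := y0 - y1) (a3 := |y2 + y3|)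
    (a4 := |y2 - y3|) (t := t) (s := 153 / 100 * r - r ^ 2 - 1 / 2 - t)
    (by linarith) (by linarith) (abs_nonneg _) (abs_nonneg _) (by linarith)
    (by rw [sq3, sq4, ht]; ring) rfl hr hr0 (by linarith) (by linarith)
    (abs_le.mpr ⟨by linarith, by linarith⟩) (abs_le.mpr ⟨by linarith, by linarith⟩)
  refine key.trans (le_of_eq ?_)
  rw [Fin.sum_univ_eight, d0, d1, d2, d3, d4, d5, d6, d7]
  have e3 : max 0 (153 / 100 * r - r ^ 2 - 1 / 2 - t + |y2 + y3|)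
      + max 0 (153 / 100 * r - r ^ 2 - 1 / 2 - t - |y2 + y3|)
      = max 0 (153 / 100 * r - r ^ 2 - 1 / 2 - t + (y2 + y3))
      + max 0 (153 / 100 * r - r ^ 2 - 1 / 2 - t - (y2 + y3)) := by
    rcases abs_cases (y2 + y3) with ⟨h1, -⟩ | ⟨h1, -⟩
    · rw [h1]
    · rw [h1, sub_neg_eq_add, ← sub_eq_add_neg, add_comm]
  have e4 : max 0 (153 / 100 * r - r ^ 2 - 1 / 2 - t + |y2 - y3|)
      + max 0 (153 / 100 * r - r ^ 2 - 1 / 2 - t - |y2 - y3|)
      = max 0 (153 / 100 * r - r ^ 2 - 1 / 2 - t + (y2 - y3))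
      + max 0 (153 / 100 * r - r ^ 2 - 1 / 2 - t - (y2 - y3)) := by
    rcases abs_cases (y2 - y3) with ⟨h1, -⟩ | ⟨h1, -⟩
    · rw [h1]
    · rw [h1, sub_neg_eq_add, ← sub_eq_add_neg, add_comm]
  rw [e3, e4]
  have f : ∀ x : ℝ, 153 / 100 * r - r ^ 2 - (1 / 2 + t - x)
      = 153 / 100 * r - r ^ 2 - 1 / 2 - t + x := fun x => by ring
  have f' : ∀ x : ℝ, 153 / 100 * r - r ^ 2 - (1 / 2 + t + x)
      = 153 / 100 * r - r ^ 2 - 1 / 2 - t - x := fun x => by ring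
  simp only [f, f']
  ring

/-- value of the weight at a lattice point -/
theorem Qf_low {r D : ℝ} (hr0 : 0 < r) (hr : r < 98 / 100) (hD : 1 ≤ D + r ^ 2) :
    Qf (153 / 100) (79 / 10) (98 / 100) (532 / 100) (r / (D + r ^ 2))
      = 79 / 10 / r * max 0 (153 / 100 * r - r ^ 2 - D) := by
  have hpos : 0 < D + r ^ 2 := by linarith
  have h1 : r / (D + r ^ 2) < 98 / 100 := lt_of_le_of_lt (div_le_self hr0.le hD) hr
  unfold Qf
  rw [if_pos h1, one_div_div, mul_max_of_nonneg _ _ (by positivity), mul_zero]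
  congr 1
  field_simp
  ring

theorem Qf_nonneg (r : ℝ) : 0 ≤ Qf (153 / 100) (79 / 10) (98 / 100) (532 / 100) r := by
  unfold Qf
  split_ifs
  · exact le_max_left _ _
  · norm_num

/-- the family of rows used in the lower bound -/
noncomputable def fam (e1 e2 d0 : ℍ[ℝ]) : UI × Option (Fin 8) → GL2H
  | (a, none) => gD (un a) ⟨un_mem a, un_norm a⟩
  | (a, some m) => gL (un a) (d0 + star e1 * pts m * star e2) ⟨un_mem a, un_norm a⟩

theorem fam_inj {e1 e2 d0 : ℍ[ℝ]} (he1 : e1 ∈ US) (he2 : e2 ∈ US)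
    (j k : UI × Option (Fin 8)) (h0 : (fam e1 e2 d0 j).1 1 0 = (fam e1 e2 d0 k).1 1 0)
    (h1 : (fam e1 e2 d0 j).1 1 1 = (fam e1 e2 d0 k).1 1 1) : j = k := by
  have hne : ∀ a, un a ≠ 0 := fun a h => by have := un_norm a; rw [h] at this; simp at this
  obtain ⟨a, o⟩ := j
  obtain ⟨b, o'⟩ := k
  cases o with
  | none =>
    cases o' with
    | none =>
      have h : un a = un b := by simpa [fam, gD] using h1
      rw [un_inj h]
    | some m' =>
      exfalso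
      have h : (0 : ℍ[ℝ]) = un b := by simpa [fam, gD, gL] using h0
      exact hne b h.symm
  | some m =>
    cases o' with
    | none =>
      exfalso
      have h : un a = 0 := by simpa [fam, gD, gL] using h0
      exact hne a h
    | some m' =>
      have h : un a = un b := by simpa [fam, gL] using h0
      have hab := un_inj h
      subst hab
      have h2 : un a * (d0 + star e1 * pts m * star e2)
          = un a * (d0 + star e1 * pts m' * star e2) := by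
        have h3 : -(un a * (d0 + star e1 * pts m * star e2))
            = -(un a * (d0 + star e1 * pts m' * star e2)) := h1
        exact neg_injective h3
      have h4 := add_left_cancel (mul_left_cancel₀ (hne a) h2)
      have h5 : pts m = pts m' := by
        have e : ∀ x : ℍ[ℝ], e1 * (star e1 * x * star e2) * e2 = x := by
          intro x
          calc e1 * (star e1 * x * star e2) * e2 = (e1 * star e1) * x * (star e2 * e2) := by
                simp only [mul_assoc]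
            _ = x := by rw [mul_star_of_US he1, star_mul_of_US he2, one_mul, mul_one]
        rw [← e (pts m), ← e (pts m'), h4]
      rw [pts_inj h5]

theorem fam_mem {e1 e2 d0 : ℍ[ℝ]} (he1 : e1 ∈ US) (he2 : e2 ∈ US) (hd0 : d0 ∈ Hur)
    (j : UI × Option (Fin 8)) : fam e1 e2 d0 j ∈ Gam Hur := by
  obtain ⟨a, o⟩ := j
  cases o with
  | none => exact gD_mem ⟨un_mem a, un_norm a⟩
  | some m =>
    exact gL_mem ⟨un_mem a, un_norm a⟩ (add_mem hd0 (mul_mem (mul_mem (star_mem he1.1) (pts_mem m)) (star_mem he2.1)))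

/-- the lower bound, from the algebra of the action -/
theorem lower_Hur_aux
    (hmem : ∀ (g : GL2H) {p : Pt}, p ∈ UH → act g p ∈ UH)
    (hmul : ∀ (g h : GL2H), nrd h.1 = 1 → ∀ {p : Pt}, p ∈ UH → act (g * h) p = act g (act h p))
    (hden : ∀ (g : GL2H) {p : Pt}, p ∈ UH → 0 < den g p)
    (hR : NiceRing Hur) {p : Pt} (hp : p ∈ UH) :
    ENNReal.ofReal (4 * (24 * (133 / 100))) ≤
      ∑' v : Prim Hur,
        ENNReal.ofReal (Qf (153 / 100) (79 / 10) (98 / 100) (532 / 100) (1 / uval v p)) := by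
  obtain ⟨γ, hγ, hmax⟩ := exists_highest hden hR hp
  have hp1m : act γ p ∈ UH := hmem γ hp
  obtain ⟨z, hz⟩ : ∃ z : ℍ[ℝ], z = (act γ p).1 := ⟨_, rfl⟩
  obtain ⟨r, hr⟩ : ∃ r : ℝ, r = (act γ p).2 := ⟨_, rfl⟩
  have hr0 : 0 < r := by rw [hr]; exact hp1m
  have h24 : (4 * (24 * (133 / 100)) : ℝ) = 24 * (532 / 100) := by norm_num
  -- reducedness
  have hred : ∀ d ∈ Hur, 1 ≤ ‖z - d‖ ^ 2 + r ^ 2 := by
    intro d hd
    have h1 := hmax (gL 1 d one_US * γ) (mul_mem (gL_mem one_US hd) hγ)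
    rw [hmul _ γ (hR.nrd_one γ hγ) hp, act_snd, den_gL, ← hz, ← hr] at h1
    have hD : 0 < ‖z - d‖ ^ 2 + r ^ 2 := by positivity
    rw [div_le_iff₀ hD] at h1
    by_contra hc
    have h2 : r * (‖z - d‖ ^ 2 + r ^ 2) < r * 1 := mul_lt_mul_of_pos_left (not_le.mp hc) hr0
    linarith
  rcases le_or_gt (98 / 100) r with hcase | hcase
  · -- one high cusp
    have hfam := family_le hmul hR (J := UI) (fun a => gD (un a) ⟨un_mem a, un_norm a⟩)
      (fun a => gD_mem _) (fun j k _ h1 => un_inj (by simpa [gD] using h1)) hγ hp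
      (fun x => ENNReal.ofReal (Qf (153 / 100) (79 / 10) (98 / 100) (532 / 100) x))
    refine le_trans (le_of_eq ?_) hfam
    have e : ∀ a : UI, ENNReal.ofReal (Qf (153 / 100) (79 / 10) (98 / 100) (532 / 100)
        (act (gD (un a) ⟨un_mem a, un_norm a⟩) (act γ p)).2) = ENNReal.ofReal (532 / 100) := by
      intro a
      rw [act_snd, den_gD, div_one, ← hr]
      unfold Qf
      rw [if_neg (not_lt.mpr hcase)]
    rw [Finset.sum_congr rfl fun a _ => e a, Finset.sum_const, Finset.card_univ, card_UI, h24,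
      ENNReal.ofReal_mul (by norm_num)]
    norm_num
  · -- normal form
    obtain ⟨d0, hd0, hnear⟩ := nearest hR.fin z
    obtain ⟨e1, he1, e2, he2, hn1, hn2⟩ := normal_form hR.fin (z - d0)
    obtain ⟨y, hy⟩ : ∃ y : ℍ[ℝ], y = e1 * (z - d0) * e2 := ⟨_, rfl⟩
    rw [← hy] at hn1 hn2
    obtain ⟨q1, q2, q3, q4⟩ := normal_ineqs hn1 hn2
    have hdist : ∀ x : ℍ[ℝ], ‖z - (d0 + star e1 * x * star e2)‖ = ‖y - x‖ := by
      intro x
      have e : y - x = e1 * (z - (d0 + star e1 * x * star e2)) * e2 := by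
        have h1 : e1 * (star e1 * x * star e2) * e2 = x := by
          calc e1 * (star e1 * x * star e2) * e2 = (e1 * star e1) * x * (star e2 * e2) := by
                simp only [mul_assoc]
            _ = x := by rw [mul_star_of_US he1, star_mul_of_US he2, one_mul, mul_one]
        rw [← sub_sub, mul_sub, sub_mul, h1, hy]
      rw [e, norm_mul, norm_mul, he1.2, he2.2, one_mul, mul_one]
    have hmemd : ∀ x ∈ Hur, d0 + star e1 * x * star e2 ∈ Hur := fun x hx =>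
      add_mem hd0 (mul_mem (mul_mem (star_mem he1.1) hx) (star_mem he2.1))
    have hredy : ∀ m, 1 ≤ ‖y - pts m‖ ^ 2 + r ^ 2 := by
      intro m
      rw [← hdist]
      exact hred _ (hmemd _ (pts_mem m))
    have hre : y.re ≤ 1 / 2 := by
      have h1 := hnear _ (hmemd 1 (one_mem _))
      rw [hdist] at h1
      have h2 : ‖z - d0‖ = ‖y‖ := by
        rw [hy, norm_mul, norm_mul, he1.2, he2.2, one_mul, mul_one]
      rw [h2] at h1
      have h3 := pow_le_pow_left₀ (norm_nonneg _) h1 2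
      rw [nsq, nsq] at h3
      simp only [Quaternion.re_sub, Quaternion.imI_sub, Quaternion.imJ_sub, Quaternion.imK_sub,
        Quaternion.re_one, Quaternion.imI_one, Quaternion.imJ_one, Quaternion.imK_one] at h3
      nlinarith
    have hpt := point_ineq hr0 hcase hre q1 q2 q3 q4 hredy
    have hfam := family_le hmul hR (J := UI × Option (Fin 8)) (fam e1 e2 d0)
      (fam_mem he1 he2 hd0) (fam_inj he1 he2) hγ hp
      (fun x => ENNReal.ofReal (Qf (153 / 100) (79 / 10) (98 / 100) (532 / 100) x))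
    refine le_trans ?_ hfam
    have e0 : ∀ a : UI, (act (fam e1 e2 d0 (a, none)) (act γ p)).2 = r := by
      intro a
      show (act (gD (un a) ⟨un_mem a, un_norm a⟩) (act γ p)).2 = r
      rw [act_snd, den_gD, div_one, ← hr]
    have e3 : ∀ (a : UI) (m : Fin 8), (act (fam e1 e2 d0 (a, some m)) (act γ p)).2
        = r / (‖y - pts m‖ ^ 2 + r ^ 2) := by
      intro a m
      show (act (gL (un a) (d0 + star e1 * pts m * star e2) ⟨un_mem a, un_norm a⟩)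
        (act γ p)).2 = _
      rw [act_snd, den_gL, ← hr, ← hz, hdist]
    rw [Fintype.sum_prod_type]
    simp only [Fintype.sum_option, e0, e3]
    rw [Finset.sum_const, Finset.card_univ, card_UI, h24, ENNReal.ofReal_mul (by norm_num)]
    have key : ENNReal.ofReal (532 / 100) ≤
        ENNReal.ofReal (Qf (153 / 100) (79 / 10) (98 / 100) (532 / 100) r) +
        ∑ m, ENNReal.ofReal (Qf (153 / 100) (79 / 10) (98 / 100) (532 / 100)
          (r / (‖y - pts m‖ ^ 2 + r ^ 2))) := by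
      rw [← ENNReal.ofReal_sum_of_nonneg fun m _ => Qf_nonneg _,
        ← ENNReal.ofReal_add (Qf_nonneg _) (Finset.sum_nonneg fun m _ => Qf_nonneg _)]
      apply ENNReal.ofReal_le_ofReal
      have h1 : 79 / 10 / r * (153 / 100 * r - 1)
          ≤ Qf (153 / 100) (79 / 10) (98 / 100) (532 / 100) r := by
        unfold Qf
        rw [if_pos hcase]
        refine le_trans (le_of_eq ?_) (le_max_right _ _)
        field_simp
      have h2 : ∑ m, Qf (153 / 100) (79 / 10) (98 / 100) (532 / 100)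
          (r / (‖y - pts m‖ ^ 2 + r ^ 2))
          = 79 / 10 / r * ∑ m, max 0 (153 / 100 * r - r ^ 2 - ‖y - pts m‖ ^ 2) := by
        rw [Finset.mul_sum]
        exact Finset.sum_congr rfl fun m _ => Qf_low hr0 hcase (hredy m)
      rw [h2]
      have h3 : 79 / 10 / r * (1 - 6767 / 7900 * r)
          ≤ 79 / 10 / r * ∑ m, max 0 (153 / 100 * r - r ^ 2 - ‖y - pts m‖ ^ 2) :=
        mul_le_mul_of_nonneg_left hpt (by positivity)
      have h4 : 79 / 10 / r * (153 / 100 * r - 1) + 79 / 10 / r * (1 - 6767 / 7900 * r)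
          = 532 / 100 := by
        field_simp
        ring
      linarith
    calc ENNReal.ofReal 24 * ENNReal.ofReal (532 / 100)
        ≤ ENNReal.ofReal 24 * (ENNReal.ofReal (Qf (153 / 100) (79 / 10) (98 / 100) (532 / 100) r) +
        ∑ m, ENNReal.ofReal (Qf (153 / 100) (79 / 10) (98 / 100) (532 / 100)
          (r / (‖y - pts m‖ ^ 2 + r ^ 2)))) := by gcongr
      _ = _ := by rw [nsmul_eq_mul]; norm_num

end Pool.Agent.Helper83.Ram5
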