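import Pool.Agent.Helper83.Ram5.ALow
import Pool.Agent.Helper13.Ram5.Alg

set_option autoImplicit false

/-!
# The Hurwitz order: lattice, discreteness, reduced norm one, covering
-/

namespace Pool.Agent.Helper83.Ram5

open Pool.Agent.Helper10.Ram5 Pool.Agent.Helper34.Ram5
open scoped Quaternion ENNReal

theorem isLat_Hur : IsLat Hur := by
  intro x
  rw [mem_iff]
  constructor
  · rintro ⟨a, b, c, d, h1, h2, h3, h4⟩
    refine ⟨![a, b, c, d], ?_⟩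
    ext
    · rw [h1]; simp [par]
    · rw [h2]; simp [par]
    · rw [h3]; simp [par]
    · rw [h4]; simp [par]
  · rintro ⟨n, rfl⟩
    exact ⟨n 0, n 1, n 2, n 3, by simp [par], by simp [par], by simp [par], by simp [par]⟩

theorem fin_Hur (C : ℝ) : {x : ℍ[ℝ] | x ∈ Hur ∧ ‖x‖ ≤ C}.Finite := by
  obtain ⟨N, hN⟩ := exists_nat_ge (4 * C)
  let T : Set (Fin 4 → ℤ) := Set.Icc (fun _ => -(N : ℤ)) (fun _ => (N : ℤ))
  have hT : T.Finite := Set.finite_Icc _ _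
  refine (hT.image fun n => par fun i => (n i : ℝ)).subset ?_
  rintro x ⟨hx, hxC⟩
  obtain ⟨n, rfl⟩ := (isLat_Hur x).mp hx
  refine ⟨n, ?_, rfl⟩
  have hC0 : 0 ≤ C := (norm_nonneg _).trans hxC
  have h1 : ‖par fun i => (n i : ℝ)‖ ^ 2 ≤ C ^ 2 := pow_le_pow_left₀ (norm_nonneg _) hxC 2
  rw [nsq] at h1
  simp only [par] at h1
  have h3 : |(n 3 : ℝ) / 2| ≤ C := by
    apply abs_le_of_sq_le_sq _ hC0
    nlinarith [sq_nonneg ((n 0 : ℝ) + n 3 / 2), sq_nonneg ((n 1 : ℝ) + n 3 / 2),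
      sq_nonneg ((n 2 : ℝ) + n 3 / 2)]
  have h0 : |(n 0 : ℝ) + n 3 / 2| ≤ C := by
    apply abs_le_of_sq_le_sq _ hC0
    nlinarith [sq_nonneg ((n 3 : ℝ) / 2), sq_nonneg ((n 1 : ℝ) + n 3 / 2),
      sq_nonneg ((n 2 : ℝ) + n 3 / 2)]
  have h1' : |(n 1 : ℝ) + n 3 / 2| ≤ C := by
    apply abs_le_of_sq_le_sq _ hC0
    nlinarith [sq_nonneg ((n 3 : ℝ) / 2), sq_nonneg ((n 0 : ℝ) + n 3 / 2),
      sq_nonneg ((n 2 : ℝ) + n 3 / 2)]
  have h2 : |(n 2 : ℝ) + n 3 / 2| ≤ C := by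
    apply abs_le_of_sq_le_sq _ hC0
    nlinarith [sq_nonneg ((n 3 : ℝ) / 2), sq_nonneg ((n 0 : ℝ) + n 3 / 2),
      sq_nonneg ((n 1 : ℝ) + n 3 / 2)]
  rw [abs_le] at h0 h1' h2 h3
  have key : ∀ i, -(N : ℝ) ≤ n i ∧ (n i : ℝ) ≤ N := by
    intro i
    fin_cases i <;> constructor <;> simp only [Fin.zero_eta, Fin.mk_one, Fin.reduceFinMk] <;>
      linarith [h0.1, h0.2, h1'.1, h1'.2, h2.1, h2.2, h3.1, h3.2]
  refine ⟨fun i => ?_, fun i => ?_⟩
  · have := (key i).1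
    exact_mod_cast this
  · have := (key i).2
    exact_mod_cast this

theorem niceRing_Hur : NiceRing Hur where
  disc := fun x hx h0 => (isH_of_mem hx).disc h0
  fin := fin_Hur
  nrd_one := by
    intro γ hγ
    have hint : ∀ δ ∈ Gam Hur, ∃ n : ℤ, nrd δ.1 = n := by
      intro δ hδ
      obtain ⟨n, hn⟩ := dtn_int (v := (δ.1 0 0, δ.1 0 1)) (w := (δ.1 1 0, δ.1 1 1))
        (isH_of_mem (entry_mem hδ 0 0)) (isH_of_mem (entry_mem hδ 0 1))
        (isH_of_mem (entry_mem hδ 1 0)) (isH_of_mem (entry_mem hδ 1 1))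
      refine ⟨n, ?_⟩
      rw [← hn]
      rfl
    obtain ⟨a, ha⟩ := hint γ hγ
    obtain ⟨b, hb⟩ := hint γ⁻¹ (inv_mem hγ)
    have h1 : nrd γ.1 * nrd (γ⁻¹).1 = 1 := by
      rw [← Pool.Agent.Helper13.Ram5.nrd_mul, mul_inv_cancel]
      exact Pool.Agent.Helper13.Ram5.nrd_one'
    have ha0 := Pool.Agent.Helper13.Ram5.nrd_nonneg γ.1
    have hb0 := Pool.Agent.Helper13.Ram5.nrd_nonneg (γ⁻¹).1
    rw [ha] at h1 ha0 ⊢
    rw [hb] at h1 hb0
    have h2 : a * b = 1 := by exact_mod_cast h1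
    have h3 : 0 ≤ a := by exact_mod_cast ha0
    have h4 := Int.eq_one_or_neg_one_of_mul_eq_one h2
    rcases h4 with h4 | h4
    · rw [h4]; norm_num
    · omega

/-- the order is norm-Euclidean -/
theorem euclid (z : ℍ[ℝ]) : ∃ d ∈ Hur, ‖z - d‖ ^ 2 ≤ 1 / 2 := by
  obtain ⟨d0, hd0, hnear⟩ := nearest fin_Hur z
  refine ⟨d0, hd0, ?_⟩
  obtain ⟨e1, he1, e2, he2, hn1, hn2⟩ := normal_form fin_Hur (z - d0)
  obtain ⟨y, hy⟩ : ∃ y : ℍ[ℝ], y = e1 * (z - d0) * e2 := ⟨_, rfl⟩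
  rw [← hy] at hn1 hn2
  obtain ⟨q1, q2, q3, q4⟩ := normal_ineqs hn1 hn2
  have hnorm : ‖z - d0‖ = ‖y‖ := by
    rw [hy, norm_mul, norm_mul, he1.2, he2.2, one_mul, mul_one]
  have h1 := hnear (d0 + star e1 * 1 * star e2)
    (add_mem hd0 (mul_mem (mul_mem (star_mem he1.1) (one_mem _)) (star_mem he2.1)))
  have h2 : ‖z - (d0 + star e1 * 1 * star e2)‖ = ‖y - 1‖ := by
    have e : y - 1 = e1 * (z - (d0 + star e1 * 1 * star e2)) * e2 := by
      have h1 : e1 * (star e1 * 1 * star e2) * e2 = 1 := by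
        calc e1 * (star e1 * 1 * star e2) * e2 = (e1 * star e1) * 1 * (star e2 * e2) := by
              simp only [mul_assoc]
          _ = 1 := by rw [mul_star_of_US he1, star_mul_of_US he2, one_mul, mul_one]
      rw [← sub_sub, mul_sub, sub_mul, h1, hy]
    rw [e, norm_mul, norm_mul, he1.2, he2.2]
    simp only [one_mul, mul_one]
  rw [h2, hnorm] at h1
  have h3 := pow_le_pow_left₀ (norm_nonneg _) h1 2
  rw [nsq, nsq] at h3
  simp only [Quaternion.re_sub, Quaternion.imI_sub, Quaternion.imJ_sub, Quaternion.imK_sub,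
    Quaternion.re_one, Quaternion.imI_one, Quaternion.imJ_one, Quaternion.imK_one] at h3
  have h4 : y.re ≤ 1 / 2 := by nlinarith
  rw [hnorm, nsq]
  have a1 := abs_nonneg y.imJ
  have a2 := abs_nonneg y.imK
  have b1 : y.imJ ^ 2 = |y.imJ| ^ 2 := (sq_abs _).symm
  have b2 : y.imK ^ 2 = |y.imK| ^ 2 := (sq_abs _).symm
  rw [b1, b2]
  nlinarith [mul_nonneg q1 a1, mul_nonneg q1 a2, mul_nonneg a1 a2]

theorem covers_Hur : Covers Hur 1 (7 / 10) := by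
  intro p hp
  obtain ⟨γ, hγ, hmax⟩ := exists_highest
    (fun g _ hp => Pool.Agent.Helper13.Ram5.den_pos g hp) niceRing_Hur hp
  have hp1 : act γ p ∈ UH := Pool.Agent.Helper13.Ram5.act_mem γ hp
  obtain ⟨d, hd, hdist⟩ := euclid (act γ p).1
  have htr : Pool.Agent.Helper10.Ram5.trans (-d) ∈ Gam Hur := by
    apply mem_Gam
    · intro i j
      fin_cases i <;> fin_cases j <;> simp [Pool.Agent.Helper10.Ram5.trans, hd]
    · intro i j
      show (!![1, - -d; 0, 1] : Matrix (Fin 2) (Fin 2) ℍ[ℝ]) i j ∈ Hur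
      fin_cases i <;> fin_cases j <;> simp [hd]
  have hact : act (Pool.Agent.Helper10.Ram5.trans (-d) * γ) p = ((act γ p).1 - d, (act γ p).2) := by
    rw [Pool.Agent.Helper13.Ram5.act_mul _ γ (niceRing_Hur.nrd_one γ hγ) hp,
      Pool.Agent.Helper13.Ram5.act_trans, ← sub_eq_add_neg]
  refine ⟨Pool.Agent.Helper10.Ram5.trans (-d) * γ, mul_mem htr hγ, ?_, ?_⟩
  · rw [hact]
    have : ‖(act γ p).1 - d‖ ^ 2 ≤ 1 ^ 2 := by linarith
    exact (abs_le_of_sq_le_sq' this zero_le_one).2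
  · rw [hact]
    show 7 / 10 ≤ (act γ p).2
    have hr0 : 0 < (act γ p).2 := hp1
    have h1 := hmax (gL 1 d one_US * γ) (mul_mem (gL_mem one_US hd) hγ)
    rw [Pool.Agent.Helper13.Ram5.act_mul _ γ (niceRing_Hur.nrd_one γ hγ) hp, act_snd,
      den_gL] at h1
    have hD : 0 < ‖(act γ p).1 - d‖ ^ 2 + (act γ p).2 ^ 2 := by positivity
    rw [div_le_iff₀ hD] at h1
    have h2 : 1 ≤ ‖(act γ p).1 - d‖ ^ 2 + (act γ p).2 ^ 2 := by
      by_contra hc
      have h2 := mul_lt_mul_of_pos_left (not_le.mp hc) hr0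
      linarith
    nlinarith

theorem lower_Hur {p : Pt} (hp : p ∈ UH) :
    ENNReal.ofReal (4 * (24 * (133 / 100))) ≤
      ∑' v : Prim Hur,
        ENNReal.ofReal (Qf (153 / 100) (79 / 10) (98 / 100) (532 / 100) (1 / uval v p)) :=
  lower_Hur_aux (fun g _ hp => Pool.Agent.Helper13.Ram5.act_mem g hp)
    (fun g h hh _ hp => Pool.Agent.Helper13.Ram5.act_mul g h hh hp)
    (fun g _ hp => Pool.Agent.Helper13.Ram5.den_pos g hp) niceRing_Hur hp

end Pool.Agent.Helper83.Ram5
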