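import Pool.Agent.Helper34.Ram5.Hurw

set_option autoImplicit false

/-!
# Units of the Hurwitz order, reduction of a quaternion modulo the order and its units
-/

namespace Pool.Agent.Helper83.Ram5

open Pool.Agent.Helper10.Ram5 Pool.Agent.Helper34.Ram5
open scoped Quaternion

theorem int_mem (n : ℤ) : ((n : ℝ) : ℍ[ℝ]) ∈ Hur := by
  have : ((n : ℝ) : ℍ[ℝ]) = (n : ℍ[ℝ]) := by norm_cast
  rw [this]
  exact intCast_mem Hur n

theorem i_mem : (⟨0, 1, 0, 0⟩ : ℍ[ℝ]) ∈ Hur := Subring.subset_closure (by simp)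
theorem j_mem : (⟨0, 0, 1, 0⟩ : ℍ[ℝ]) ∈ Hur := Subring.subset_closure (by simp)
theorem w_mem : (⟨1 / 2, 1 / 2, 1 / 2, 1 / 2⟩ : ℍ[ℝ]) ∈ Hur := Subring.subset_closure (by simp)

theorem mem_of_isH {x : ℍ[ℝ]} (hx : IsH x) : x ∈ Hur := by
  obtain ⟨a, b, c, d, h1, h2, h3, h4⟩ := hx
  have e : x = ((a : ℝ) : ℍ[ℝ]) + ((b : ℝ) : ℍ[ℝ]) * ⟨0, 1, 0, 0⟩
      + ((c : ℝ) : ℍ[ℝ]) * ⟨0, 0, 1, 0⟩ + ((d : ℝ) : ℍ[ℝ]) * ⟨1 / 2, 1 / 2, 1 / 2, 1 / 2⟩ := by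
    ext <;> simp [h1, h2, h3, h4] <;> ring
  rw [e]
  exact add_mem (add_mem (add_mem (int_mem a) (mul_mem (int_mem b) i_mem))
    (mul_mem (int_mem c) j_mem)) (mul_mem (int_mem d) w_mem)

theorem mem_iff {x : ℍ[ℝ]} : x ∈ Hur ↔ IsH x := ⟨isH_of_mem, mem_of_isH⟩

theorem star_mem {x : ℍ[ℝ]} (hx : x ∈ Hur) : star x ∈ Hur :=
  mem_of_isH (isH_of_mem hx).star

/-- index type of the 24 units -/
abbrev UI := (Fin 4 × Bool) ⊕ (Fin 4 → Bool)

/-- twice the coordinates of the units -/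
def uz : UI → Fin 4 → ℤ
  | Sum.inl (l, b) => fun m => if m = l then (if b then 2 else -2) else 0
  | Sum.inr s => fun m => if s m then 1 else -1

/-- the 24 units -/
noncomputable def un (a : UI) : ℍ[ℝ] :=
  ⟨(uz a 0 : ℝ) / 2, (uz a 1 : ℝ) / 2, (uz a 2 : ℝ) / 2, (uz a 3 : ℝ) / 2⟩

theorem card_UI : Fintype.card UI = 24 := by decide

theorem uz_inj : Function.Injective uz := by decide

theorem uz_par (a : UI) : (∀ m, Even (uz a m)) ∨ (∀ m, Odd (uz a m)) := by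
  revert a; decide

theorem uz_norm (a : UI) : uz a 0 ^ 2 + uz a 1 ^ 2 + uz a 2 ^ 2 + uz a 3 ^ 2 = 4 := by
  revert a; decide

theorem un_inj : Function.Injective un := by
  intro a b h
  apply uz_inj
  funext m
  have h0 := congrArg (fun q : ℍ[ℝ] => q.re) h
  have h1 := congrArg (fun q : ℍ[ℝ] => q.imI) h
  have h2 := congrArg (fun q : ℍ[ℝ] => q.imJ) h
  have h3 := congrArg (fun q : ℍ[ℝ] => q.imK) h
  simp only [un] at h0 h1 h2 h3
  fin_cases m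
  · have : (uz a 0 : ℝ) = uz b 0 := by linarith
    exact_mod_cast this
  · have : (uz a 1 : ℝ) = uz b 1 := by linarith
    exact_mod_cast this
  · have : (uz a 2 : ℝ) = uz b 2 := by linarith
    exact_mod_cast this
  · have : (uz a 3 : ℝ) = uz b 3 := by linarith
    exact_mod_cast this

theorem un_mem (a : UI) : un a ∈ Hur := by
  apply mem_of_isH
  rcases uz_par a with h | h
  · obtain ⟨p, hp⟩ := h 0
    obtain ⟨q, hq⟩ := h 1
    obtain ⟨r, hr⟩ := h 2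
    obtain ⟨s, hs⟩ := h 3
    refine ⟨p - s, q - s, r - s, 2 * s, ?_, ?_, ?_, ?_⟩ <;> simp [un, hp, hq, hr, hs] <;> ring
  · obtain ⟨p, hp⟩ := h 0
    obtain ⟨q, hq⟩ := h 1
    obtain ⟨r, hr⟩ := h 2
    obtain ⟨s, hs⟩ := h 3
    refine ⟨p - s, q - s, r - s, 2 * s + 1, ?_, ?_, ?_, ?_⟩ <;> simp [un, hp, hq, hr, hs] <;> ring

theorem un_norm (a : UI) : ‖un a‖ = 1 := by
  have h : ‖un a‖ ^ 2 = 1 := by
    rw [nsq]
    simp only [un]
    have := uz_norm a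
    have h2 : (uz a 0 : ℝ) ^ 2 + (uz a 1 : ℝ) ^ 2 + (uz a 2 : ℝ) ^ 2 + (uz a 3 : ℝ) ^ 2 = 4 := by
      exact_mod_cast this
    linarith
  nlinarith [norm_nonneg (un a)]

/-- the set of units -/
def US : Set ℍ[ℝ] := {u | u ∈ Hur ∧ ‖u‖ = 1}

theorem US_mul {u v : ℍ[ℝ]} (hu : u ∈ US) (hv : v ∈ US) : u * v ∈ US :=
  ⟨mul_mem hu.1 hv.1, by rw [norm_mul, hu.2, hv.2, one_mul]⟩

theorem US_star {u : ℍ[ℝ]} (hu : u ∈ US) : star u ∈ US :=
  ⟨star_mem hu.1, by rw [norm_star, hu.2]⟩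

theorem norm_one_of {x : ℍ[ℝ]} (h : x.re ^ 2 + x.imI ^ 2 + x.imJ ^ 2 + x.imK ^ 2 = 1) :
    ‖x‖ = 1 := by
  have h2 : ‖x‖ ^ 2 = 1 := by rw [nsq, h]
  nlinarith [norm_nonneg x]

theorem one_US : (1 : ℍ[ℝ]) ∈ US := ⟨one_mem _, norm_one⟩

theorem mul_star_of_US {u : ℍ[ℝ]} (hu : u ∈ US) : u * star u = 1 := by
  rw [mul_star_self', hu.2]; simp

theorem star_mul_of_US {u : ℍ[ℝ]} (hu : u ∈ US) : star u * u = 1 := by
  have := mul_star_of_US (US_star hu)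
  rwa [star_star] at this

theorem re_comm (x y : ℍ[ℝ]) : (x * y).re = (y * x).re := by
  rw [Quaternion.re_mul, Quaternion.re_mul]; ring

/-- normal form of a quaternion under multiplication by units on both sides -/
theorem normal_form (hfin : ∀ C : ℝ, {x : ℍ[ℝ] | x ∈ Hur ∧ ‖x‖ ≤ C}.Finite) (z : ℍ[ℝ]) :
    ∃ e1 ∈ US, ∃ e2 ∈ US, (∀ u ∈ US, (e1 * z * e2 * star u).re ≤ (e1 * z * e2).re) ∧
      (∀ f ∈ US, (f * (e1 * z * e2) * star f).imI ≤ (e1 * z * e2).imI) := by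
  have hUfin : US.Finite := (hfin 1).subset fun u hu => ⟨hu.1, hu.2.le⟩
  obtain ⟨e, he, hmax⟩ := Set.exists_max_image US (fun u => (z * u).re) hUfin ⟨1, one_US⟩
  obtain ⟨f, hf, hfmax⟩ := Set.exists_max_image US (fun f => (f * (z * e) * star f).imI) hUfin
    ⟨1, one_US⟩
  refine ⟨f, hf, e * star f, US_mul he (US_star hf), ?_, ?_⟩
  · intro u hu
    have h1 : (f * z * (e * star f) * star u).re = (z * (e * star f * star u * f)).re := by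
      have : f * z * (e * star f) * star u = f * (z * (e * star f * star u)) := by
        simp only [mul_assoc]
      rw [this, re_comm]
      simp only [mul_assoc]
    have h2 : (f * z * (e * star f)).re = (z * e).re := by
      have : f * z * (e * star f) = f * (z * e * star f) := by simp only [mul_assoc]
      rw [this, re_comm, mul_assoc, star_mul_of_US hf, mul_one]
    rw [h1, h2]
    exact hmax _ (US_mul (US_mul (US_mul he (US_star hf)) (US_star hu)) hf)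
  · intro g hg
    have h1 : g * (f * z * (e * star f)) * star g = (g * f) * (z * e) * star (g * f) := by
      rw [star_mul]; simp only [mul_assoc]
    have h2 : f * z * (e * star f) = f * (z * e) * star f := by simp only [mul_assoc]
    rw [h1, h2]
    exact hfmax _ (US_mul hg hf)

/-- nearest point of the order -/
theorem nearest (hfin : ∀ C : ℝ, {x : ℍ[ℝ] | x ∈ Hur ∧ ‖x‖ ≤ C}.Finite) (z : ℍ[ℝ]) :
    ∃ d ∈ Hur, ∀ x ∈ Hur, ‖z - d‖ ≤ ‖z - x‖ := by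
  have hS : ({x : ℍ[ℝ] | x ∈ Hur ∧ ‖z - x‖ ≤ ‖z‖}).Finite := by
    refine (hfin (2 * ‖z‖)).subset fun x hx => ⟨hx.1, ?_⟩
    have h1 : ‖x‖ ≤ ‖z - x‖ + ‖z‖ := by
      have := norm_sub_le z (z - x)
      rw [sub_sub_cancel] at this
      linarith
    have := hx.2
    linarith
  obtain ⟨d, hd, hmin⟩ := Set.exists_min_image _ (fun x => ‖z - x‖) hS
    ⟨0, zero_mem _, by simp⟩
  refine ⟨d, hd.1, fun x hx => ?_⟩
  rcases le_total ‖z - x‖ ‖z‖ with h | h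
  · exact hmin x ⟨hx, h⟩
  · exact hd.2.trans h

/-- the inequalities satisfied by a normal form -/
theorem normal_ineqs {y : ℍ[ℝ]} (h1 : ∀ u ∈ US, (y * star u).re ≤ y.re)
    (h2 : ∀ f ∈ US, (f * y * star f).imI ≤ y.imI) :
    0 ≤ y.imI ∧ |y.imJ| ≤ y.imI ∧ |y.imK| ≤ y.imI ∧ y.imI + |y.imJ| + |y.imK| ≤ y.re := by
  have mI : (⟨0, 1, 0, 0⟩ : ℍ[ℝ]) ∈ US := ⟨i_mem, norm_one_of (by norm_num)⟩
  have mJ : (⟨0, 0, 1, 0⟩ : ℍ[ℝ]) ∈ US := ⟨j_mem, norm_one_of (by norm_num)⟩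
  have mW : (⟨1 / 2, 1 / 2, 1 / 2, 1 / 2⟩ : ℍ[ℝ]) ∈ US := ⟨w_mem, norm_one_of (by norm_num)⟩
  have mW2 := US_star mW
  -- conjugations
  have a1 := h2 _ mJ
  have a2 := h2 _ mW
  have a3 := h2 _ mW2
  have a4 := h2 _ (US_mul mW mI)
  have a5 := h2 _ (US_mul mW mJ)
  have a6 := h2 _ (US_mul mW2 mI)
  have a7 := h2 _ (US_mul mW2 mJ)
  have hu : ∀ s t : ℤ, (s = 1 ∨ s = -1) → (t = 1 ∨ t = -1) →
      (⟨1 / 2, 1 / 2, s / 2, t / 2⟩ : ℍ[ℝ]) ∈ US := by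
    rintro s t (rfl | rfl) (rfl | rfl)
    · exact ⟨mem_of_isH ⟨0, 0, 0, 1, by norm_num⟩, norm_one_of (by norm_num)⟩
    · exact ⟨mem_of_isH ⟨1, 1, 1, -1, by norm_num⟩, norm_one_of (by norm_num)⟩
    · exact ⟨mem_of_isH ⟨0, 0, -1, 1, by norm_num⟩, norm_one_of (by norm_num)⟩
    · exact ⟨mem_of_isH ⟨1, 1, 0, -1, by norm_num⟩, norm_one_of (by norm_num)⟩
  have b1 := h1 _ (hu 1 1 (by simp) (by simp))
  have b2 := h1 _ (hu 1 (-1) (by simp) (by simp))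
  have b3 := h1 _ (hu (-1) 1 (by simp) (by simp))
  have b4 := h1 _ (hu (-1) (-1) (by simp) (by simp))
  simp only [Quaternion.re_mul, Quaternion.imI_mul, Quaternion.imJ_mul, Quaternion.imK_mul,
    Quaternion.re_star, Quaternion.imI_star, Quaternion.imJ_star, Quaternion.imK_star]
    at a1 a2 a3 a4 a5 a6 a7 b1 b2 b3 b4
  push_cast at b1 b2 b3 b4
  ring_nf at a1 a2 a3 a4 a5 a6 a7 b1 b2 b3 b4
  have c0 : 0 ≤ y.imI := by linarith
  refine ⟨c0, abs_le.mpr ⟨?_, ?_⟩, abs_le.mpr ⟨?_, ?_⟩, ?_⟩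
  · linarith
  · linarith
  · linarith
  · linarith
  · rcases abs_cases y.imJ with ⟨h3, -⟩ | ⟨h3, -⟩ <;> rcases abs_cases y.imK with ⟨h4, -⟩ | ⟨h4, -⟩ <;>
      rw [h3, h4] <;> linarith

end Pool.Agent.Helper83.Ram5
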